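import Pool.Agent.R530.TugSieve

/-!
# The prime-gap up/down score is positive at `n = 261150`

Here `p_n = 3666581` is the prime with (zero-based) index `n = 261150`.  The proof evaluates, in
the kernel, a bit-parallel sieve of the odd numbers up to `3666581` (bit `i` stands for
`2 i + 1`), the mask of the primes whose next gap is larger than the previous one, and the mask of
the primes whose next gap is equal to the previous one, together with their population counts.
-/

set_option autoImplicit false

namespace Pool.Agent.Results.MP_69d63a_nt.PositiveScore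

open Finset Pool.Agent.R530.Tug

/-- `p i` is the `i`-th prime, indexed from zero: `p 0 = 2`, `p 1 = 3`, `p 2 = 5`, ... -/
noncomputable def p (i : ℕ) : ℕ := Nat.nth Nat.Prime i

/-- `g n = p n - p (n - 1)` is the `n`-th prime gap, for `n ≥ 1`. -/
noncomputable def g (n : ℕ) : ℤ := (p n : ℤ) - (p (n - 1) : ℤ)

/-- The score `a n`, the sum over `2 ≤ k ≤ n` of the sign of `g k - g (k - 1)`. -/
noncomputable def a (n : ℕ) : ℤ := ∑ k ∈ Icc 2 n, Int.sign (g k - g (k - 1))

lemma p_mono : StrictMono p := Nat.nth_strictMono Nat.infinite_setOfPred_prime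

lemma p_prime (i : ℕ) : (p i).Prime := Nat.nth_mem_of_infinite Nat.infinite_setOfPred_prime i

lemma p_count (q : ℕ) (hq : q.Prime) : p (Nat.count Nat.Prime q) = q := Nat.nth_count hq

lemma count_p (i : ℕ) : Nat.count Nat.Prime (p i) = i :=
  Nat.count_nth_of_infinite Nat.infinite_setOfPred_prime i

lemma next_le (q r : ℕ) (hq : q.Prime) (hr : r.Prime) (h : q < r) :
    p (Nat.count Nat.Prime q + 1) ≤ r := by
  have h1 : Nat.count Nat.Prime q < Nat.count Nat.Prime r := Nat.count_strict_mono hq h
  calc p (Nat.count Nat.Prime q + 1) ≤ p (Nat.count Nat.Prime r) := p_mono.monotone h1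
    _ = r := p_count r hr

lemma lt_next (q : ℕ) (hq : q.Prime) : q < p (Nat.count Nat.Prime q + 1) := by
  calc q = p (Nat.count Nat.Prime q) := (p_count q hq).symm
    _ < _ := p_mono (Nat.lt_succ_self _)

lemma le_prev (q r : ℕ) (hr : r.Prime) (h : r < q) :
    1 ≤ Nat.count Nat.Prime q ∧ r ≤ p (Nat.count Nat.Prime q - 1) := by
  have h1 : Nat.count Nat.Prime r < Nat.count Nat.Prime q := Nat.count_strict_mono hr h
  refine ⟨by omega, ?_⟩
  calc r = p (Nat.count Nat.Prime r) := (p_count r hr).symm
    _ ≤ _ := p_mono.monotone (by omega)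

lemma prev_lt (q : ℕ) (hq : q.Prime) (h : 1 ≤ Nat.count Nat.Prime q) :
    p (Nat.count Nat.Prime q - 1) < q := by
  calc p (Nat.count Nat.Prime q - 1) < p (Nat.count Nat.Prime q) := p_mono (by omega)
    _ = q := p_count q hq

lemma B_iff (i : ℕ) (hi : i ≤ 1833290) : B.testBit i = true ↔ (2 * i + 1).Prime :=
  testBit_BB 1833291 957 i (by omega) (by norm_num)

lemma X_prime : Nat.Prime 3666581 := by norm_num

lemma BX : B.testBit 1833290 = true := by
  rw [B_iff 1833290 le_rfl]
  exact X_prime

/-- the primes below `3666581` -/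
lemma count_X : Nat.count Nat.Prime 3666581 = 261150 := by
  have h1 : ((range 1833290).filter (fun i => B.testBit i = true)).card = 261149 :=
    card_B 1833290 rfl
  have h2 : (range 3666581).filter Nat.Prime = insert 2
      (((range 1833290).filter (fun i => B.testBit i = true)).image (fun i => 2 * i + 1)) := by
    ext q
    rw [mem_filter, mem_range, mem_insert, mem_image]
    constructor
    · rintro ⟨h3, h4⟩
      rcases Nat.Prime.eq_two_or_odd h4 with h5 | h5
      · left
        exact h5
      · right
        refine ⟨(q - 1) / 2, ?_, by omega⟩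
        rw [mem_filter, mem_range]
        refine ⟨by omega, ?_⟩
        rw [B_iff _ (by omega)]
        have : 2 * ((q - 1) / 2) + 1 = q := by omega
        rwa [this]
    · rintro (h3 | ⟨i, hi, rfl⟩)
      · subst h3
        exact ⟨by norm_num, Nat.prime_two⟩
      · rw [mem_filter, mem_range] at hi
        refine ⟨by omega, ?_⟩
        exact (B_iff i (by omega)).mp hi.2
  rw [Nat.count_eq_card_filter_range, h2, card_insert_of_notMem, card_image_of_injective, h1]
  · intro x y hxy
    simp only at hxy
    omega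
  · rw [mem_image]
    rintro ⟨i, _, hi⟩
    omega

/-- the index of the step whose middle prime is `2 i + 1` -/
noncomputable def idx (i : ℕ) : ℕ := Nat.count Nat.Prime (2 * i + 1) + 1

lemma idx_inj (i j : ℕ) (hi : (2 * i + 1).Prime) (hj : (2 * j + 1).Prime) (h : idx i = idx j) :
    i = j := by
  unfold idx at h
  have h1 : Nat.count Nat.Prime (2 * i + 1) = Nat.count Nat.Prime (2 * j + 1) := by omega
  have h2 := p_count _ hi
  rw [h1, p_count _ hj] at h2
  omega

lemma g_idx (i : ℕ) (hi : (2 * i + 1).Prime) :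
    g (idx i) - g (idx i - 1) = (p (Nat.count Nat.Prime (2 * i + 1) + 1) : ℤ)
      + (p (Nat.count Nat.Prime (2 * i + 1) - 1) : ℤ) - 2 * ((2 * i + 1 : ℕ) : ℤ) := by
  unfold g idx
  rw [Nat.add_sub_cancel, p_count _ hi]
  ring

lemma idx_mem (i : ℕ) (hi : i < 1833290) (hp : (2 * i + 1).Prime) (h : 3 ≤ idx i) :
    idx i ∈ Icc 3 261150 := by
  rw [mem_Icc]
  refine ⟨h, ?_⟩
  have := Nat.count_strict_mono hp (show 2 * i + 1 < 3666581 by omega)
  rw [count_X] at this
  unfold idx
  omega

lemma idx_ge (i d : ℕ) (hd : 1 ≤ d) (hdi : d ≤ i) (h : (2 * (i - d) + 1).Prime) : 3 ≤ idx i := by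
  have h1 := Nat.count_strict_mono Nat.prime_two (show 2 < 2 * (i - d) + 1 by
    have := h.two_le
    omega)
  have h2 := Nat.count_strict_mono h (show 2 * (i - d) + 1 < 2 * i + 1 by omega)
  unfold idx
  omega

/-- an up step -/
lemma up_spec (i : ℕ) (hi : i < 1833290) (h : (UU B 74).testBit i = true) :
    (2 * i + 1).Prime ∧ idx i ∈ Icc 3 261150 ∧ Int.sign (g (idx i) - g (idx i - 1)) = 1 := by
  obtain ⟨d, hd1, _, hB, hdi, hB2, hno⟩ := testBit_UU B 74 i h
  have hp : (2 * i + 1).Prime := (B_iff i (by omega)).mp hB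
  have hp2 : (2 * (i - d) + 1).Prime := (B_iff (i - d) (by omega)).mp hB2
  have hlt : i + d < 1833290 := by
    by_contra hge
    push Not at hge
    apply hno (1833290 - i) (by omega) (by omega)
    have : i + (1833290 - i) = 1833290 := by omega
    rw [this]
    exact BX
  obtain ⟨hc1, hprev⟩ := le_prev (2 * i + 1) _ hp2 (by omega)
  have hnext := lt_next (2 * i + 1) hp
  have hnp := p_prime (Nat.count Nat.Prime (2 * i + 1) + 1)
  have hbig : 2 * (i + d) + 1 < p (Nat.count Nat.Prime (2 * i + 1) + 1) := by
    by_contra hle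
    push Not at hle
    set r := p (Nat.count Nat.Prime (2 * i + 1) + 1) with hr
    have hodd : r % 2 = 1 := by
      rcases Nat.Prime.eq_two_or_odd hnp with h5 | h5
      · have := hp.two_le
        omega
      · exact h5
    apply hno ((r - 1) / 2 - i) (by omega) (by omega)
    rw [B_iff _ (by omega)]
    have : 2 * (i + ((r - 1) / 2 - i)) + 1 = r := by omega
    rwa [this]
  refine ⟨hp, idx_mem i hi hp (idx_ge i d hd1 hdi hp2), ?_⟩
  rw [g_idx i hp]
  apply Int.sign_eq_one_of_pos
  omega

/-- a step without change -/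
lemma eq_spec (i : ℕ) (hi : i < 1833290) (h : (EE B 74).testBit i = true) :
    (2 * i + 1).Prime ∧ idx i ∈ Icc 3 261150 ∧ Int.sign (g (idx i) - g (idx i - 1)) = 0 := by
  obtain ⟨d, hd1, _, hB, hdi, hB2, hB3, hno, hno2⟩ := testBit_EE B 74 i h
  have hp : (2 * i + 1).Prime := (B_iff i (by omega)).mp hB
  have hp2 : (2 * (i - d) + 1).Prime := (B_iff (i - d) (by omega)).mp hB2
  have hlt : i + d ≤ 1833290 := by
    by_contra hge
    push Not at hge
    apply hno (1833290 - i) (by omega) (by omega)
    have : i + (1833290 - i) = 1833290 := by omega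
    rw [this]
    exact BX
  have hp3 : (2 * (i + d) + 1).Prime := (B_iff (i + d) (by omega)).mp hB3
  obtain ⟨hc1, hprev⟩ := le_prev (2 * i + 1) _ hp2 (by omega)
  have hprev2 := prev_lt (2 * i + 1) hp hc1
  have hnext := lt_next (2 * i + 1) hp
  have hnext2 := next_le (2 * i + 1) _ hp hp3 (by omega)
  have hnp := p_prime (Nat.count Nat.Prime (2 * i + 1) + 1)
  have hpp := p_prime (Nat.count Nat.Prime (2 * i + 1) - 1)
  have hN : p (Nat.count Nat.Prime (2 * i + 1) + 1) = 2 * (i + d) + 1 := by
    by_contra hne
    set r := p (Nat.count Nat.Prime (2 * i + 1) + 1) with hr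
    have hodd : r % 2 = 1 := by
      rcases Nat.Prime.eq_two_or_odd hnp with h5 | h5
      · have := hp.two_le
        omega
      · exact h5
    apply hno ((r - 1) / 2 - i) (by omega) (by omega)
    rw [B_iff _ (by omega)]
    have : 2 * (i + ((r - 1) / 2 - i)) + 1 = r := by omega
    rwa [this]
  have hP : p (Nat.count Nat.Prime (2 * i + 1) - 1) = 2 * (i - d) + 1 := by
    by_contra hne
    set r := p (Nat.count Nat.Prime (2 * i + 1) - 1) with hr
    have hodd : r % 2 = 1 := by
      rcases Nat.Prime.eq_two_or_odd hpp with h5 | h5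
      · have := hp2.two_le
        omega
      · exact h5
    apply hno2 (i - (r - 1) / 2) (by omega) (by omega) (by omega)
    rw [B_iff _ (by omega)]
    have : 2 * (i - (i - (r - 1) / 2)) + 1 = r := by omega
    rwa [this]
  refine ⟨hp, idx_mem i hi hp (idx_ge i d hd1 hdi hp2), ?_⟩
  rw [g_idx i hp, hN, hP]
  rw [Int.sign_eq_zero_iff_zero]
  omega

lemma first_step : Int.sign (g 2 - g (2 - 1)) = 1 := by
  have h0 : p 0 = 2 := Nat.nth_prime_zero_eq_two
  have h1 : p 1 = 3 := Nat.nth_prime_one_eq_three
  have h2 : p 2 = 5 := Nat.nth_prime_two_eq_five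
  have : g 2 - g (2 - 1) = 1 := by
    unfold g
    norm_num
    rw [h0, h1, h2]
    norm_num
  rw [this]
  rfl

/-- **The score is positive at `n = 261150`**, so the answer to the question is yes. -/
theorem result : ∃ n : ℕ, n = 261150 ∧ 250000 < n ∧ 0 < a n := by
  refine ⟨261150, rfl, by norm_num, ?_⟩
  set s : ℕ → ℤ := fun k => Int.sign (g k - g (k - 1)) with hs
  set U := (Icc 2 261150).filter (fun k => s k = 1) with hU
  set E := (Icc 2 261150).filter (fun k => s k = 0) with hE
  have hsum : -(261149 : ℤ) + 2 * U.card + E.card ≤ a 261150 := by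
    have h1 : ∀ k ∈ Icc 2 261150, (-1 : ℤ) + 2 * (if s k = 1 then 1 else 0) +
        (if s k = 0 then 1 else 0) ≤ s k := by
      intro k _
      rcases Int.sign_trichotomy (g k - g (k - 1)) with h | h | h
      · have : s k = 1 := h
        rw [this]
        norm_num
      · have : s k = 0 := h
        rw [this]
        norm_num
      · have : s k = -1 := h
        rw [this]
        norm_num
    have h2 := sum_le_sum h1
    rw [sum_add_distrib, sum_add_distrib, ← mul_sum, sum_const, Nat.card_Icc] at h2
    have h3 : (∑ k ∈ Icc 2 261150, (if s k = 1 then (1 : ℤ) else 0)) = U.card := by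
      rw [hU, card_filter]
      push_cast
      rfl
    have h4 : (∑ k ∈ Icc 2 261150, (if s k = 0 then (1 : ℤ) else 0)) = E.card := by
      rw [hE, card_filter]
      push_cast
      rfl
    rw [h3, h4] at h2
    have h5 : a 261150 = ∑ k ∈ Icc 2 261150, s k := rfl
    rw [h5]
    refine le_trans (le_of_eq ?_) h2
    norm_num
  -- the masks
  set MU := (range 1833290).filter (fun i => (UU B 74).testBit i = true) with hMU
  set ME := (range 1833290).filter (fun i => (EE B 74).testBit i = true) with hME
  have hcard : 2 * (MU.card + 1) + ME.card = 261150 := card_UE 1833290 rfl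
  have hUc : MU.card + 1 ≤ U.card := by
    have h1 : insert 2 (MU.image idx) ⊆ U := by
      intro k hk
      rw [mem_insert, mem_image] at hk
      rcases hk with rfl | ⟨i, hi, rfl⟩
      · rw [hU, mem_filter, mem_Icc]
        exact ⟨⟨le_rfl, by norm_num⟩, first_step⟩
      · rw [hMU, mem_filter, mem_range] at hi
        obtain ⟨_, h2, h3⟩ := up_spec i hi.1 hi.2
        rw [mem_Icc] at h2
        rw [hU, mem_filter, mem_Icc]
        exact ⟨⟨by omega, h2.2⟩, h3⟩
    have h2 := card_le_card h1
    rw [card_insert_of_notMem, card_image_of_injOn] at h2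
    · exact h2
    · intro i hi j hj hij
      rw [mem_coe, hMU, mem_filter, mem_range] at hi hj
      exact idx_inj i j (up_spec i hi.1 hi.2).1 (up_spec j hj.1 hj.2).1 hij
    · rw [mem_image]
      rintro ⟨i, hi, hi2⟩
      rw [hMU, mem_filter, mem_range] at hi
      obtain ⟨_, h2, h3⟩ := up_spec i hi.1 hi.2
      rw [mem_Icc] at h2
      omega
  have hEc : ME.card ≤ E.card := by
    have h1 : ME.image idx ⊆ E := by
      intro k hk
      rw [mem_image] at hk
      obtain ⟨i, hi, rfl⟩ := hk
      rw [hME, mem_filter, mem_range] at hi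
      obtain ⟨_, h2, h3⟩ := eq_spec i hi.1 hi.2
      rw [mem_Icc] at h2
      rw [hE, mem_filter, mem_Icc]
      exact ⟨⟨by omega, h2.2⟩, h3⟩
    have h2 := card_le_card h1
    rw [card_image_of_injOn] at h2
    · exact h2
    · intro i hi j hj hij
      rw [mem_coe, hME, mem_filter, mem_range] at hi hj
      exact idx_inj i j (eq_spec i hi.1 hi.2).1 (eq_spec j hj.1 hj.2).1 hij
  omega

end Pool.Agent.Results.MP_69d63a_nt.PositiveScore
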